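import Pool.Agent.AMS.Fin
import Pool.Agent.AMS.Dich
import Pool.Agent.AMS.NonScal
import Pool.Agent.AMS.Bal
import Pool.Agent.AMS.Iso
import Pool.Agent.AMS.Near
import Pool.Agent.AMS.Gal
import Pool.Agent.AMS.Ari
import Pool.Agent.AMS.App
import Pool.Agent.AMS.Inv
import Pool.Agent.AMS.Vert
import Pool.Agent.AMS.HomI
import Pool.Agent.AMS.Redn
import Pool.Agent.AMS.ExtSt
import Pool.Agent.AMS.Ext
import Pool.Agent.AMS.Cone
import Pool.Agent.AMS.LPo

open Pool.Agent.AMS

open Classical in
/-- The conclusion of the AMU conjecture in every genus, for all pushes of a boundary component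
along the elements of a large subgroup.

`Γ` is a finite trivalent fatgraph with leaves, given by its half edges, `l` is a leaf, `g` is the
first Betti number of `Γ` and `m ≥ 1` the number of its leaves. Two copies (front and back) of the
thickening of `Γ`, glued along the sides of the edges, form the surface `Σ_{g,m}`; a further boundary
component `∂₀` moves on it. `Path Γ l l` consists of the closed paths of `∂₀` starting at the leaf
`l`, `Hom` is homotopy, `Null` is the kernel `N` of `π₁(Σ_{g,m}) → π₁(Σ_g)` (products of conjugates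
of the loops around the leaves) and `Comm` its commutator subgroup `[N, N]`. `Path.mat` is the
action of the push of `∂₀` along the path on the space `V_r(Σ_{g,m+1}; 1, t + 1, t, …, t)`: `∂₀` is
coloured `1`, the leaf `l` is coloured `t + 1` and the other leaves are coloured `t`.

For every non-trivial `γ` in `[N, N]` and for all sufficiently large even `t`: for all sufficiently
large levels `r` and for all primitive `4r`-th roots of unity `A` no positive power of the push
along `γ` is a scalar. -/
theorem Pool.Agent.Results.MP_7b657c_gt.AllGenera.result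
    (H : Type) [Finite H] (Γ : Fat H) (l : H) (hl : Γ.nxt l = l) (γ : Path Γ l l)
    (hγ : Comm Γ γ) (hne : ¬ Hom Γ γ .nil) :
    ∃ t₀ : ℕ, ∀ t ≥ t₀, Even t → ∃ r₀ : ℕ, ∀ r ≥ r₀, ∀ A : ℂ, IsPrimitiveRoot A (4 * r) →
      ∀ n : ℕ, 0 < n → ∀ z : ℂ,
        γ.mat Γ r (fun h => if h = l then t + 1 else t) A ^ n ≠ z • 1 :=
  thm_Fin
    (thm_Dich thm_Bal (thm_Iso thm_Inv) (thm_Near (thm_App thm_Inv) (thm_Iso thm_Inv)) thm_Gal
      thm_Ari (thm_App thm_Inv))
    (thm_NonScal (thm_HomI thm_Inv (thm_Vert thm_Inv)) thm_Redn thm_ExtSt (thm_Ext thm_ExtSt)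
      thm_Cone thm_LPo) H Γ l hl γ hγ hne
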