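import Pool.Agent.AMS.Bal
import Pool.Agent.AMS.Iso
import Pool.Agent.AMS.Gal
import Pool.Agent.AMS.Ari
import Pool.Agent.AMS.App
import Pool.Agent.AMS.Inv
import Pool.Agent.AMS.Vert
import Pool.Agent.AMS.HomI
import Pool.Agent.AMS.Redn
import Pool.Agent.AMS.ExtSt
import Pool.Agent.AMS.Ext
import Pool.Agent.AMS.Cone
import Pool.Agent.AMS.LPo
import Pool.Agent.AMS.Plc
import Pool.Agent.AMS.CurN
import Pool.Agent.AMS.IntC
import Pool.Agent.AMS.PathR
import Pool.Agent.AMS.Rep
import Pool.Agent.AMS.Lnk
import Pool.Agent.AMS.Up
import Pool.Agent.AMS.Down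
import Pool.Agent.AMS.Pol
import Pool.Agent.AMS.GRel1
import Pool.Agent.AMS.GRel2
import Pool.Agent.AMS.DichN
import Pool.Agent.AMS.ResN
import Pool.Agent.AMS.Mono
import Pool.Agent.AMS.ConjF
import Pool.Agent.AMS.AlgN
import Pool.Agent.AMS.Lift
import Pool.Agent.AMS.Sup
import Pool.Agent.AMS.FinN

open Pool.Agent.AMS

open Classical in
/-- The conclusion of the AMU conjecture in every genus `g ≥ 1` for the pushes of a boundary
component which become trivial when another boundary component is filled.

`Γ` is a finite trivalent fatgraph with leaves, given by its half edges, `l` is a leaf, `g` is the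
first Betti number of `Γ` and `m ≥ 1` the number of its leaves. Two copies (front and back) of the
thickening of `Γ`, glued along the sides of the edges, form the surface `Σ_{g,m}`; a further boundary
component `∂₀` moves on it. `φ` is a flow on `Γ` which is zero exactly on the edges of the leaves, at
most one of them at each vertex (so `g ≥ 1`; every edge which is not the edge of a leaf lies on a
cycle). `Path Γ l l` consists of the closed paths of `∂₀` starting at the leaf `l`, `Hom` is homotopy.
`NullL Γ l` is the kernel of `π₁(Σ_{g,m}) → π₁(Σ_{g,m-1})`, a disc being glued in at the leaf `l`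
(products of conjugates of the loop around `l`). `crossings` is the number of times a path crosses
the curves of the pants decomposition of `Γ`. `Path.mat` is the action of the push of `∂₀` along the
path on the space `V_r(Σ_{g,m+1}; 1, t + 1, t, …, t)`: `∂₀` is coloured `1`, the leaf `l` is coloured
`t + 1` and the other leaves are coloured `t`.

Let `γ` be an element of this kernel, whose powers cross the curves of the pants decomposition
unboundedly often (for every `B` some power is not homotopic to any path with at most `B`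
crossings). Then for all sufficiently large even `t`: for all sufficiently large levels `r` and for
all primitive `4r`-th roots of unity `A` no positive power of the push along `γ` is a scalar. -/
theorem Pool.Agent.Results.MP_7b657c_gt.BrunnianPushes.result
    (H : Type) [Finite H] (Γ : Fat H) (φ : H → ℤ) (hφ : IsFlow Γ φ) (l : H) (hl : Γ.nxt l = l)
    (γ : Path Γ l l) (hγ : NullL Γ l γ)
    (hu : ∀ B : ℕ, ∃ n : ℕ, ∀ w : Path Γ l l, Hom Γ w (γ.pow n) → B < crossings w) :
    ∃ t₀ : ℕ, ∀ t ≥ t₀, Even t → ∃ r₀ : ℕ, ∀ r ≥ r₀,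
      ∀ A : ℂ, IsPrimitiveRoot A (4 * r) → ∀ n : ℕ, 0 < n → ∀ z : ℂ,
        γ.mat Γ r (fun h => if h = l then t + 1 else t) A ^ n ≠ z • 1 := by
  have hA : St_App := thm_App thm_Inv
  have hI : St_Iso := thm_Iso thm_Inv
  have hV : St_Vert := thm_Vert thm_Inv
  have hP : St_Place := thm_Plc
  have hC : St_Cur := thm_CurN
  have hT : St_PathR := thm_PathR (thm_IntC hC)
  have hR : St_Rep := thm_Rep
  have hU : St_Up := thm_Up hR thm_Lnk
  have hD : St_Down := thm_Down hP hC hR thm_Lnk
  have hG1 : St_GRel1 := thm_GRel1 hU hA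
  have hG2 : St_GRel2 := thm_GRel2 hP hC hT hG1 hU hV
  have hM : St_Mono := thm_Mono hG2
  have hCF : St_ConjF := thm_ConjF hG2 hM
  exact thm_FinN hC hT hU hD (thm_Pol hA) (thm_DichN thm_Bal hI thm_Gal thm_Ari hA)
    (thm_ResN hC hT hG1) (thm_AlgN hG2 hCF) (thm_Lift hC) (thm_Sup thm_ExtSt) hA
    (thm_HomI thm_Inv hV) thm_Redn thm_ExtSt (thm_Ext thm_ExtSt) thm_Cone thm_LPo
    H Γ φ hφ l hl γ hγ hu
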