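import Pool.Agent.AMU0.Final

open Matrix Pool.Agent.AMU

/-- The AMU conjecture in genus `0`, for all mapping classes which fix the boundary components.
Let `w` be a pure braid on `m` strands, that is, up to the centre, a mapping class of the sphere with
`m + 1` holes. If `w` has a pseudo-Anosov part, then for every `d > 0` there are colours `c` of the
first `m` boundary components, divisible by `d`, and a number `k ≤ 2`, such that for all
sufficiently large levels `N` and for all primitive `N`-th roots of unity `A` the mapping class has
infinite order on the projective space of the block with the colours `c` and the outer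
colour `off c m - 2 * k`. -/
theorem Pool.Agent.Results.MP_7b657c_gt.GenusZero.result
    (m : ℕ) (w : List (ℕ × Bool)) (hw : PureWord m w) (h : HasPA m w) (d : ℕ) (hd : 0 < d) :
    ∃ (c : ℕ → ℕ) (k N0 : ℕ), (∀ i, d ∣ c i) ∧ k ≤ 2 ∧ 2 * k ≤ off c m ∧
      ∀ N, N0 ≤ N → ∀ A : ℂ, IsPrimitiveRoot A N → ColInfinite m c A w k :=
  amu_final hw h hd
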