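import Pool.Agent.AMH.Final

/-!
The AMU conjecture for the torus with two boundary components: all mapping classes which do not
act hyperbolically on the homology of the torus (up to powers, conjugation and boundary twists).
The definitions are in `Pool.Agent.AMG.Defs` and `Pool.Agent.AMH.Defs`.
-/

namespace Pool.Agent.Results.MP_7b657c_gt.TorusTwoHoles

open Pool.Agent.AMG Pool.Agent.AMH

/-- First part: point pushes. Second part: products of point pushes and of powers of the Dehn
twist `t`. -/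
theorem result :
    (∀ w : List (Fin 2 × Bool), ¬ Simple (FreeGroup.mk w) →
      ∃ K r0 : ℕ, ∀ r, r0 ≤ r → ∃ c, c + 2 ≤ r ∧ r ≤ c + 2 + K ∧
        ∀ A : ℂ, IsPrimitiveRoot A (4 * r) → InfOrder r c A w) ∧
    (∀ w : List (Fin 3 × Bool), ¬ Elem (gval w) →
      ∃ K r0 : ℕ, ∀ r, r0 ≤ r → ∃ c, c + 2 ≤ r ∧ r ≤ c + 2 + K ∧
        ∀ A : ℂ, IsPrimitiveRoot A (4 * r) → InfOrderT r c A w) :=
  ⟨fun w hw => Pool.Agent.AMG.main w hw, fun w hw => Pool.Agent.AMH.main w hw⟩

end Pool.Agent.Results.MP_7b657c_gt.TorusTwoHoles
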